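import Mathlib
import Pool.Agent.Q63.KI.Main

/-!
# Kimura finite-dimensionality of complete intersections of two diagonal cubics or quartics

Let `X` be (a desingularisation of) an abelian covering of the complex projective plane, branched over lines in
general position, such that every intermediate cyclic covering is branched over at most four lines, or over five
lines two of which have opposite exponents (`Isotrivial`). Then `X` is Kimura finite-dimensional; more
generally its motive has every property which is stable under finite sums and summands and holds for the
motives of products of two curves.

This applies to all abelian coverings of exponent three or four branched over at most five lines, because all characters with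
sum zero are `Isotrivial`. Among them are all smooth complete intersections of two diagonal cubics, and of two
diagonal quartics, in `P^4`; these surfaces of general type have two moduli, `K = O(1)`, `p_g = 5`, `K^2 = 9` for cubics
and `K = O(3)`, `p_g = 35`, `K^2 = 144` for quartics. (Finite-dimensionality does not depend on the coefficients.)

A cyclic covering of the plane branched over four lines is a quotient of a Fermat surface, and if `a i + a j = 0` then
the pencil of lines through the point `D_i ∩ D_j` gives a pencil of curves on the covering which are coverings
of `P^1` branched over the intersection points with the three other lines. Three points have no moduli, so the pencil is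
isotrivial and the surface is dominated by a product of two curves.
-/

set_option autoImplicit false

namespace Pool.Agent.Results.MP_868bb7_ag.IsotrivialPencils

open CategoryTheory Pool.Agent.Q63.KU Pool.Agent.Q63.KI

theorem result {𝒞 : Type} [Category.{0} 𝒞] [Preadditive 𝒞] [Linear ℂ 𝒞] (P : 𝒞 → Prop)
    (hP : SummandClosed P) {m s : ℕ} [NeZero m] (Λ : AddSubgroup (Fin s → ZMod m))
    (ψ : AddChar (ZMod m) ℂ) (hψ : ψ.IsPrimitive) (M : 𝒞)
    (ρ : Multiplicative (Fin s → ZMod m) →* End M) (Q : (Fin s → ZMod m) → 𝒞)
    (push : ∀ a, M ⟶ Q a) (pull : ∀ a, Q a ⟶ M)
    (hM : LineCoverMotive Λ ψ P M ρ Q push pull) :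
    ((∀ a ∈ Λ, Isotrivial a) → P M) ∧
    (s = 5 → m = 3 ∨ m = 4 → (∀ a ∈ Λ, ∑ i, a i = 0) → P M) := by
  refine ⟨fun h => motive hψ hP hM h, ?_⟩
  rintro rfl (rfl | rfl) h
  · exact motive hψ hP hM fun a ha => five3 a (h a ha)
  · exact motive hψ hP hM fun a ha => five4 a (h a ha)

end Pool.Agent.Results.MP_868bb7_ag.IsotrivialPencils
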